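import Pool.Agent.MP_3fc7f4_gt.Mg.Final

open MeasureTheory Filter Topology
open Pool.Agent.MP_3fc7f4_gt

namespace Pool.Agent.Results.MP_3fc7f4_gt.Density

/-- The volume density is constant along the interior of a minimizing geodesic in a noncollapsed
Ricci limit space. -/
theorem result (n : ℕ) (hn : 2 ≤ n) (lam v : ℝ) (hlam : 0 ≤ lam) (hv : 0 < v)
    (N : ℕ → PointedRiem n) (hRic : ∀ j, RicciGe n (N j).M (-lam))
    (hvol : ∀ j, ENNReal.ofReal v ≤ (N j).vol (Metric.ball (N j).pt 1))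
    (X : Type) [MetricSpace X] [CompleteSpace X] [MeasurableSpace X] [BorelSpace X]
    (ν : Measure X) [IsFiniteMeasureOnCompacts ν] (p : X)
    (hlim : PMGH (fun j => (N j).M) (fun j => (N j).normVol) (fun j => (N j).pt) X ν p)
    (γ : ℝ → X) (c : ℝ) (hc : 0 < c)
    (hγ : ∀ a ∈ Set.Ioo (-2 : ℝ) 2, ∀ b ∈ Set.Ioo (-2 : ℝ) 2, dist (γ a) (γ b) = c * |a - b|)
    (s t : ℝ) (hs : s ∈ Set.Ioo (-1 : ℝ) 1) (ht : t ∈ Set.Ioo (-1 : ℝ) 1) :
    Tendsto (fun r => ν.real (Metric.ball (γ s) r) / ν.real (Metric.ball (γ t) r))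
      (𝓝[>] 0) (𝓝 1) :=
  density n (by omega) lam v hlam hv N hRic hvol X ν p hlim γ c hc hγ s t hs ht

end Pool.Agent.Results.MP_3fc7f4_gt.Density
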